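import Pool.Agent.R557.PJEnd
import Pool.Agent.R557.DSCode
import Pool.Agent.TH676.CK.Exist

set_option autoImplicit false

/-! The orthogonal projection of a point of the plane of effective dimension larger than one in a
direction that is Martin-Löf random relative to the point is Martin-Löf random, even relative to the
direction. -/

namespace Pool.Agent.Results.MP_5eff62_lc.RandomProjection

open Pool.Agent.R557.PJ
open Pool.Agent.TH676.CK (OptPFree exists_optPFree)

/-- For every optimal prefix-free machine, every computable coding of the rational points of the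
plane, every point `(x₁, x₂)` of effective dimension larger than one and every `θ` in `[0, 1)` that is
Martin-Löf random relative to `(x₁, x₂)`: the fractional part of the projection
`cos (2πθ) x₁ + sin (2πθ) x₂` is Martin-Löf random relative to `θ`, and Martin-Löf random. Optimal
prefix-free machines and computable codings of the rational points exist. -/
theorem result :
    (∃ U : List Bool →. List Bool, OptPFree U) ∧ (∃ c : ℚ × ℚ → List Bool, IsCoding c) ∧
    ∀ U : List Bool →. List Bool, OptPFree U → ∀ c : ℚ × ℚ → List Bool, IsCoding c →
      ∀ x₁ x₂ : ℝ, 1 < effdim U c x₁ x₂ → ∀ θ : ℝ, 0 ≤ θ → θ < 1 → MLRandom (orc₂ x₁ x₂) θ →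
        MLRandom (orc θ)
          (Int.fract (Real.cos (2 * Real.pi * θ) * x₁ + Real.sin (2 * Real.pi * θ) * x₂)) ∧
        MLRandom (fun _ : ℕ => ())
          (Int.fract (Real.cos (2 * Real.pi * θ) * x₁ + Real.sin (2 * Real.pi * θ) * x₂)) := by
  refine ⟨exists_optPFree, Pool.Agent.R557.DS.exists_coding, ?_⟩
  intro U hU c hc x₁ x₂ hdim θ h0 h1 hr
  have h := proj_random hU hc hdim ⟨h0, h1⟩ hr
  exact ⟨h, random_of_rel h⟩

end Pool.Agent.Results.MP_5eff62_lc.RandomProjection
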